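import Pool.Agent.Y121.AHS.Defs
import Pool.Agent.Y133.Half.PwDefs
import Pool.Agent.W437.CY.Defs

/-!
# Absolutely Hodge classes on products of Calabi-Yau varieties: definitions

In the intended use the varieties are the smooth projective ones over the field of complex numbers
and `T` is the theory `X ↦ H(X, ℚ)`.
-/

open CategoryTheory AlgebraicGeometry

universe u

namespace Run7.h853.Ca

open Matrix Module
open Pool.Agent.H914 Pool.Agent.H914.VarClass Pool.Agent.H914.VarClass.Obj
  Pool.Agent.H914.WeilCohomology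
open Pool.Agent.Y121.AHS
open Pool.Agent.Y133.Half (pw)
open Pool.Agent.W437.CY

/-- The rational matrix as a complex matrix. -/
def cx {a b : Type} (A : Matrix a b ℚ) : Matrix a b ℂ := A.map fun t : ℚ => (t : ℂ)

section One

variable {k N : ℕ} (V : PolHS k N)

/-- The vector `x` lies in the space `H^{p,q}` with `p - q = a`. -/
def InPart (a : ℤ) (x : Fin N → ℂ) : Prop :=
  x = 0 ∨ ∃ p : Fin (k + 1), 2 * (p : ℤ) - k = a ∧ x ∈ V.H p

/-- The rational linear map with the matrix `A` is a morphism of Hodge structures from `V` to `W`,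
up to a Tate twist: it preserves the decompositions by `p - q`. -/
def IsMor {w e : ℕ} (W : PolHS w e) (A : Matrix (Fin e) (Fin N) ℚ) : Prop :=
  ∀ a x, InPart V a x → InPart W a (cx A *ᵥ x)

/-- The rational linear map with the matrix `A` is an endomorphism of the Hodge structure `V`. -/
def IsEnd (A : Matrix (Fin N) (Fin N) ℚ) : Prop := IsMor V V A

/-- The dimension of the algebra of the endomorphisms of `V` over the rational numbers. -/
noncomputable def degEnd : ℕ := finrank ℚ (Submodule.span ℚ {A | IsEnd V A})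

/-- The complex endomorphism `B` is of type `(r, -r)`. -/
def IsShift (r : ℤ) (B : Matrix (Fin N) (Fin N) ℂ) : Prop :=
  ∀ a x, InPart V a x → InPart V (a + 2 * r) (B *ᵥ x)

/-- The complexification of the space `E I + E J + E I J`, where `E` is the algebra of the
endomorphisms of the Hodge structure. -/
def quatSp (I J : Matrix (Fin N) (Fin N) ℚ) : Submodule ℂ (Matrix (Fin N) (Fin N) ℂ) :=
  Submodule.span ℂ {B | ∃ A, IsEnd V A ∧ (B = cx (A * I) ∨ B = cx (A * J) ∨ B = cx (A * (I * J)))}

/-- The Hodge structure is of tensor type over its algebra of endomorphisms `E`: among the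
`E`-linear endomorphisms of the rational vector space there are `I` and `J` which generate a
quaternion algebra over `E` (`I²` and `J²` are nonzero elements of `E`, and `J I = - I J`), such
that `E I + E J + E I J` is a sub-Hodge structure of the Hodge structure of all the endomorphisms
of the rational vector space: its complexification is spanned by elements of types `(r, -r)`. -/
def IsTensor : Prop :=
  ∃ I J : Matrix (Fin N) (Fin N) ℚ, (∀ A, IsEnd V A → A * I = I * A ∧ A * J = J * A) ∧
    IsEnd V (I * I) ∧ IsEnd V (J * J) ∧ I * I ≠ 0 ∧ J * J ≠ 0 ∧ J * I = -(I * J) ∧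
    quatSp V I J ≤ Submodule.span ℂ {B | B ∈ quatSp V I J ∧ ∃ r, IsShift V r B}

/-- The complexification of the rational subspace `U`. -/
def cxs (U : Submodule ℚ (Fin N → ℚ)) : Submodule ℂ (Fin N → ℂ) :=
  Submodule.span ℂ ((fun (u : Fin N → ℚ) i => ((u i : ℚ) : ℂ)) '' (U : Set (Fin N → ℚ)))

/-- The Hodge structure is simple: the only rational subspaces `U` which are sub-Hodge structures
(the complexification of `U` is spanned by elements of the spaces `H^{p,q}`) are the trivial
ones. -/
def IsSimple : Prop := ∀ U : Submodule ℚ (Fin N → ℚ),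
  cxs U ≤ Submodule.span ℂ {x | x ∈ cxs U ∧ ∃ a, InPart V a x} → U = ⊥ ∨ U = ⊤

end One

/-- The Hodge structure `V` of weight three is simple with `H^{3,0}` of dimension one, its
endomorphisms are self-adjoint (they are a totally real number field `E`), `V` is not of tensor type
over `E`, and the dimension of `V` over `E` is not 4, 8, 14, 20, 32, 56. -/
def GenericCY {N : ℕ} (V : PolHS 3 N) : Prop :=
  IsSimple V ∧ finrank ℂ (V.H (Fin.last 3)) = 1 ∧ (∀ A, IsEnd V A → Aᵀ * V.Q = V.Q * A) ∧ ¬IsTensor V ∧
    ∀ m ∈ ({4, 8, 14, 20, 32, 56} : Finset ℕ), N ≠ m * degEnd V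

/-- `W` is independent of `V`: the level of `W` (the maximal `|p - q|`) is less than three, or the
dimension of `W` is less than the dimension of `V` over its algebra of endomorphisms. -/
def IsIndep {N w e : ℕ} (V : PolHS 3 N) (W : PolHS w e) : Prop :=
  (∀ (a : ℤ) x, 3 ≤ |a| → InPart W a x → x = 0) ∨ e * degEnd V < N

variable {k : Type u} [Field k] {𝒱 : VarClass k} {ops : CycleOps 𝒱}

/-- The rational classes `b i` on `X` define a morphism of Hodge structures `V(-m) → H(X)`: the class `∑ x i ⊗ b i` is of type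
`(p + m, w - p + m)` for all `x` in `H^{p, w - p}`. -/
def IsCopy (T : HodgeTheory ops) {X : 𝒱.Obj} {w N : ℕ} (V : PolHS w N) (m : ℕ)
    (b : Fin N → T.W.H X) : Prop :=
  ∀ p, ∀ x ∈ V.H p, IsType T.pq (p + m) (w - p + m) (∑ i, smL (x i) (emL T.W ℂ (b i)))

/-- The elements `b i` are a basis of the subspace `U`. -/
def IsBasisOf {K A I : Type} [Field K] [Ring A] [Algebra K A] (U : Submodule K A) (b : I → A) :
    Prop :=
  LinearIndependent K b ∧ Submodule.span K (Set.range b) = U

/-- The elements `b i` are a basis of the space. -/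
def IsBasisAll (K : Type) {A I : Type} [Field K] [Ring A] [Algebra K A] (b : I → A) : Prop :=
  IsBasisOf (⊤ : Submodule K A) b

/-- The variety `X` is of type `V(-m)`: `H^{3 + 2 m}(X)` is isomorphic to the Hodge structure
`V(-m)`, and the Hodge numbers `h^{p, q}` with `p ≠ q` in all other degrees are zero. (For a
Calabi-Yau threefold: `V = H^3(X)`, `m = 0`.) -/
def OfType (T : HodgeTheory ops) (X : 𝒱.Obj) {N : ℕ} (V : PolHS 3 N) (m : ℕ) : Prop :=
  (∃ b : Fin N → T.W.H X, IsCopy T V m b ∧ IsBasisOf (T.W.gr X (3 + 2 * m)) b) ∧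
    ∀ (p q : ℤ) (x : HL T.W ℂ X), IsType T.pq p q x → x ≠ 0 → p = q ∨ p + q = 3 + 2 * m

/-- The cohomology of `Z` is isomorphic to the direct sum of the Hodge structures `W j (-t j)`. -/
def IsSumOf (T : HodgeTheory ops) (Z : 𝒱.Obj) {J : Type} {w e : J → ℕ}
    (W : ∀ j, PolHS (w j) (e j)) (t : J → ℕ) : Prop :=
  ∃ b : (Σ j, Fin (e j)) → T.W.H Z, (∀ j, IsCopy T (W j) (t j) fun i => b ⟨j, i⟩) ∧
    IsBasisAll T.W.K b

/-- `Y` is a product of `n` copies of `Z` and of any number of copies of the `X i`. -/
inductive ProductOf {ι : Type} (Z : 𝒱.Obj) (X : ι → 𝒱.Obj) : ℕ → 𝒱.Obj → Prop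
  | left : ProductOf Z X 1 Z
  | right (i : ι) : ProductOf Z X 0 (X i)
  | prod {n m : ℕ} {Y Y' : 𝒱.Obj} : ProductOf Z X n Y → ProductOf Z X m Y' →
      ProductOf Z X (n + m) (Y.prod Y')

/-- The basic varieties: the powers `Z ^ (m + 1)` with `m < n`, the varieties `X i`, and the
products `X i × X j` for the linked pairs `(i, j)`: `i = j` and there is an endomorphism of the
Hodge structure `V i` which is not a rational number, or `i ≠ j` and there is a nonzero morphism
from `V i` to `V j`. -/
def IsBasic {ι : Type} (Z : 𝒱.Obj) (X : ι → 𝒱.Obj) {N : ι → ℕ} (V : ∀ i, PolHS 3 (N i)) (n : ℕ)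
    (Y : 𝒱.Obj) : Prop :=
  (∃ m < n, Y = pw Z m) ∨ (∃ i, Y = X i) ∨ ∃ i j, Y = (X i).prod (X j) ∧
    ((i = j ∧ ∃ A, IsEnd (V i) A ∧ ∀ t : ℚ, A ≠ t • 1) ∨
      (i ≠ j ∧ ∃ A, A ≠ 0 ∧ IsMor (V i) (V j) A))

/-- Every Hodge class on `Y` is absolutely Hodge, for the conjugate theories `T' i` and the
comparison isomorphisms `C a` between the cohomology with complex coefficients of `T` and
`T' (t a)`: there are Hodge classes `c' i` of the theories `T' i` to which the class corresponds
under all `C a` (if the effect on the Tate twist is taken into account). -/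
def AbsHodgeFor (T : HodgeTheory ops) {I J : Type u} (T' : I → HodgeTheory ops) (t : J → I)
    (C : ∀ a, Comparison T.W (T' (t a)).W ℂ) (Y : 𝒱.Obj) : Prop :=
  ∀ (j : ℕ) (c : T.W.H Y), IsHodge T Y j c →
    ∃ c' : ∀ i, (T' i).W.H Y, (∀ i, IsHodge (T' i) Y j (c' i)) ∧
      ∀ a, (C a).e Y (emL _ _ c) = twL (C a).c j (emL _ _ (c' (t a)))

end Run7.h853.Ca
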