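import Pool.Agent.Run7.h853.Ca.Main
import Pool.Agent.Run7.h853.Ca.Defs

/-!
# Absolutely Hodge classes on products of Calabi-Yau threefolds
-/

open CategoryTheory AlgebraicGeometry

universe u

namespace Run7.h853.Ca

open Matrix Module
open Pool.Agent.H914 Pool.Agent.H914.VarClass Pool.Agent.H914.VarClass.Obj
  Pool.Agent.H914.WeilCohomology
open Pool.Agent.Y121.AHS
open Pool.Agent.Y133.Half (pw)
open Pool.Agent.W437.CY

lemma inPart_iff {k N : ℕ} (V : PolHS k N) (a : ℤ) (x : Fin N → ℂ) :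
    InPart V a x ↔ x ∈ Cg.part V a := by
  constructor
  · rintro (rfl | ⟨p, rfl, hx⟩)
    · exact Submodule.zero_mem _
    · exact Cg.mem_part hx
  · intro hx
    rcases Cg.part_cases (V := V) a with ⟨p, rfl⟩ | h1
    · rw [Cg.part_eq] at hx
      exact Or.inr ⟨p, rfl, hx⟩
    · rw [h1] at hx
      exact Or.inl ((Submodule.mem_bot ℂ).1 hx)

lemma isMor_iff {k N w e : ℕ} (V : PolHS k N) (W : PolHS w e) (A : Matrix (Fin e) (Fin N) ℚ) :
    IsMor V W A ↔ Cg.IsMor V W A := by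
  unfold IsMor
  simp only [inPart_iff]
  exact Iff.rfl

lemma isEnd_iff {k N : ℕ} (V : PolHS k N) (A : Matrix (Fin N) (Fin N) ℚ) :
    IsEnd V A ↔ Cg.IsEnd V A := isMor_iff V V A

lemma degEnd_eq {k N : ℕ} (V : PolHS k N) : degEnd V = Cg.degEnd V := by
  have h1 : {A | IsEnd V A} = {A | Cg.IsEnd V A} := Set.ext fun A => isEnd_iff V A
  unfold degEnd Cg.degEnd
  rw [h1]

lemma isShift_iff {k N : ℕ} (V : PolHS k N) (r : ℤ) (B : Matrix (Fin N) (Fin N) ℂ) :
    IsShift V r B ↔ Cg.IsShift V r B := by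
  unfold IsShift
  simp only [inPart_iff]
  exact Iff.rfl

lemma quat_eq {k N : ℕ} (V : PolHS k N) (I J : Matrix (Fin N) (Fin N) ℚ) :
    quatSp V I J = Cg.quatSp V I J := by
  unfold quatSp
  simp only [isEnd_iff]
  rfl

lemma isTensor_iff {k N : ℕ} (V : PolHS k N) : IsTensor V ↔ Cg.IsTensor V := by
  unfold IsTensor
  simp only [isEnd_iff, quat_eq, isShift_iff]
  exact Iff.rfl

lemma simple_of {k N : ℕ} {V : PolHS k N} (h : IsSimple V) : V.IsSimple := by
  intro U hU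
  refine h U (hU.trans (iSup_le fun p => ?_))
  intro x hx
  exact Submodule.subset_span ⟨hx.1, 2 * (p : ℤ) - k, Or.inr ⟨p, rfl, hx.2⟩⟩

lemma generic_of {N : ℕ} {V : PolHS 3 N} (h : GenericCY V) : Cg.GenericCY V := by
  obtain ⟨h1, h2, h3, h4, h5⟩ := h
  refine ⟨simple_of h1, ?_, Or.inr ⟨rfl, fun A hA => h3 A ((isEnd_iff V A).2 hA),
    fun h' => h4 ((isTensor_iff V).2 h'), fun m hm => ?_⟩⟩
  · have h6 := Cg.part_last (V := V)
    rw [h6]
    exact h2
  · rw [← degEnd_eq]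
    exact h5 m hm

lemma indep_of {N w e : ℕ} {V : PolHS 3 N} {W : PolHS w e} (h : IsIndep V W) : Cg.IsIndep V W := by
  rcases h with h | h
  · refine Or.inl fun a ha => ?_
    rw [eq_bot_iff]
    intro x hx
    exact (Submodule.mem_bot ℂ).2 (h a x (by exact_mod_cast ha) ((inPart_iff W a x).2 hx))
  · refine Or.inr (Or.inl ?_)
    rw [← degEnd_eq]
    exact h

variable {k : Type u} [Field k] {𝒱 : VarClass k} {ops : CycleOps 𝒱}

lemma realised_of {T : HodgeTheory ops} {X : 𝒱.Obj} {w N : ℕ} {V : PolHS w N} {m : ℕ}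
    {b : Fin N → T.W.H X} (h : IsCopy T V m b) : Cg.IsRealised T X V m b := h

lemma ofType_of {T : HodgeTheory ops} {X : 𝒱.Obj} {N : ℕ} {V : PolHS 3 N} {m : ℕ}
    (h : OfType T X V m) : Cg.OfType T X V m := h

lemma sum_of {T : HodgeTheory ops} {Z : 𝒱.Obj} {J : Type} {w e : J → ℕ}
    {W : ∀ j, PolHS (w j) (e j)} {t : J → ℕ} (h : IsSumOf T Z W t) : Cg.IsSumOf T Z W t := h

lemma prod_iff {ι : Type} (Z : 𝒱.Obj) (X : ι → 𝒱.Obj) (n : ℕ) (Y : 𝒱.Obj) :
    ProductOf Z X n Y ↔ Cg.ProductOf Z X n Y := by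
  constructor
  · intro h
    induction h with
    | left => exact Cg.ProductOf.left
    | right i => exact Cg.ProductOf.right i
    | prod _ _ h1 h2 => exact Cg.ProductOf.prod h1 h2
  · intro h
    induction h with
    | left => exact ProductOf.left
    | right i => exact ProductOf.right i
    | prod _ _ h1 h2 => exact ProductOf.prod h1 h2

lemma basic_iff {ι : Type} (Z : 𝒱.Obj) (X : ι → 𝒱.Obj) {N : ι → ℕ} (V : ∀ i, PolHS 3 (N i)) (n : ℕ)
    (Y : 𝒱.Obj) : IsBasic Z X V n Y ↔ Cg.IsBasic Z X V n Y := by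
  have h0 : ∀ i j, ((i = j ∧ ∃ A, IsEnd (V i) A ∧ ∀ t : ℚ, A ≠ t • 1) ∨
      (i ≠ j ∧ ∃ A, A ≠ 0 ∧ IsMor (V i) (V j) A)) ↔ Cg.Linked V i j := by
    intro i j
    simp only [isEnd_iff, isMor_iff]
    exact Iff.rfl
  constructor
  · rintro (h | h | ⟨i, j, h, h'⟩)
    · exact Or.inl h
    · exact Or.inr (Or.inl h)
    · exact Or.inr (Or.inr ⟨i, j, (h0 i j).1 h', h⟩)
  · rintro (h | h | ⟨i, j, h', h⟩)
    · exact Or.inl h
    · exact Or.inr (Or.inl h)
    · exact Or.inr (Or.inr ⟨i, j, h, (h0 i j).2 h'⟩)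

/-- The family of conjugate theories. -/
noncomputable def toConj (T : HodgeTheory ops) {I I' : Type u} (T' : I → HodgeTheory ops) (t : I' → I)
    (C : ∀ a, Comparison T.W (T' (t a)).W ℂ) : Conjugates T where
  ι := I
  T' := T'
  J := I'
  t := t
  L _ := ℂ
  emb _ := ⟨RingHom.id ℂ⟩
  cmp := C

lemma abs_iff (T : HodgeTheory ops) {I I' : Type u} (T' : I → HodgeTheory ops) (t : I' → I)
    (C : ∀ a, Comparison T.W (T' (t a)).W ℂ) (Y : 𝒱.Obj) :
    AbsHodgeFor T T' t C Y ↔ Cg.AbsHodgeFor (toConj T T' t C) Y := by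
  constructor
  · intro h j c hc
    exact ⟨hc, h j c hc⟩
  · intro h j c hc
    exact (h j c hc).2

theorem fin_main (T : HodgeTheory ops) {I I' : Type u} (T' : I → HodgeTheory ops) (t : I' → I)
    (C : ∀ a, Comparison T.W (T' (t a)).W ℂ) {ι J : Type} [Finite ι] [Finite J]
    {N m : ι → ℕ} {w' N' m' : J → ℕ} (X : ι → 𝒱.Obj) (V : ∀ i, PolHS 3 (N i)) (Z : 𝒱.Obj)
    (W : ∀ j, PolHS (w' j) (N' j)) (n : ℕ) (hV : ∀ i, GenericCY (V i))
    (hX : ∀ i, OfType T (X i) (V i) (m i)) (hZ : n = 0 ∨ IsSumOf T Z W m')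
    (hi : ∀ i j, IsIndep (V i) (W j)) :
    (∀ r ≤ n, ∀ Y, ProductOf Z X r Y → AbsHodgeFor T T' t C Y) ↔
      ∀ P, IsBasic Z X V n P → AbsHodgeFor T T' t C P := by
  have h1 := Cg.abs_final (T := T) (toConj T T' t C) (n := n) (X := X) (V := V)
    (m := m) (Z := Z) (W := W) (m' := m') (w := fun _ => 3) (fun _ => by decide) (fun i => generic_of (hV i))
    (fun i => ofType_of (hX i)) (hZ.imp_right sum_of) (fun i j => indep_of (hi i j))
  constructor
  · intro h P hP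
    have hb : ∃ r ≤ n, ProductOf Z X r P := by
      rcases hP with ⟨l, hl, rfl⟩ | ⟨i, rfl⟩ | ⟨i, j, rfl, _⟩
      · refine ⟨l + 1, hl, ?_⟩
        clear hl
        induction l with
        | zero => exact ProductOf.left
        | succ l ih =>
          have h2 := ProductOf.prod ih (ProductOf.left (Z := Z) (X := X))
          exact h2
      · exact ⟨0, Nat.zero_le _, ProductOf.right i⟩
      · exact ⟨0 + 0, Nat.zero_le _, ProductOf.prod (ProductOf.right i) (ProductOf.right j)⟩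
    obtain ⟨r, hr, hP'⟩ := hb
    exact h r hr P hP'
  · intro h r hr Y hY
    rw [abs_iff]
    refine h1.2 (fun P hP => (abs_iff T T' t C P).1 (h P ((basic_iff Z X V n P).2 hP))) Y ?_
    exact Or.inl ⟨r, hr, (prod_iff Z X r Y).1 hY⟩

end Run7.h853.Ca
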