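import Pool.Agent.Run7.h853.Cg.B2
import Pool.Agent.Run7.h853.Cg.AbsDefs
import Pool.Agent.Y121.AHS.Conv
import Pool.Agent.Y121.AH.Abs

/-!
# Absolutely Hodge classes on products of varieties of Calabi-Yau type
-/

set_option linter.unusedSectionVars false

open CategoryTheory AlgebraicGeometry TensorProduct

universe u

namespace Run7.h853.Cg

open Module
open Pool.Agent
open Pool.Agent.H914 Pool.Agent.H914.VarClass Pool.Agent.H914.VarClass.Obj
  Pool.Agent.H914.WeilCohomology
open Pool.Agent.Y121.AHS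
open Pool.Agent.Y133.Half
open Pool.Agent.Y121.AH (hodgePred absPred absSys)
open Pool.Agent.N996.BP.Geo
open Pool.Agent.W437.CY Run7.h853.Cy
open Run7.h38.KF (cl_mem_alg)

variable {k : Type u} [Field k] {𝒱 : VarClass k} {ops : CycleOps 𝒱}

variable {T : HodgeTheory ops} {D : Conjugates T}

/-- The Hodge classes on `P` are in the system of the absolutely Hodge classes. -/
lemma sp_le_abs {P : 𝒱.Obj} (h : AbsHodgeFor D P) :
    (hodgePred (toH T)).sp P ≤ (absSys (toD D)).C P := by
  intro c hc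
  refine ClassPred.sp_ind (Q := hodgePred (toH T)) (q := fun c => c ∈ (absSys (toD D)).C P)
    ?_ ?_ ?_ hc
  · intro j x hx
    exact ClassPred.sp_of (Q := absPred (toD D)) (h j x hx)
  · exact Submodule.zero_mem _
  · intro a b ha hb; exact Submodule.add_mem _ ha hb

lemma abs_of_mem {Y : 𝒱.Obj} {j : ℕ} {c : T.W.H Y} (h : c ∈ (absSys (toD D)).C Y)
    (hc : IsHodge T Y j c) : IsAbsHodge D Y j c := by
  have h1 := ClassPred.sp_proj (Q := absPred (toD D)) h j
  have h2 : H914.proj ((toH T).W.isInternal Y) (2 * j) c = c :=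
    proj_same ((toH T).W.isInternal Y) hc.1
  exact h2 ▸ h1

variable {ι J : Type} [Finite ι] [Finite J] {w N m : ι → ℕ} {w' N' m' : J → ℕ} {Z : 𝒱.Obj}
  {X : ι → 𝒱.Obj} {V : ∀ i, PolHS (w i) (N i)} {W : ∀ j, PolHS (w' j) (N' j)}

/-- **Absolutely Hodge classes on varieties of Calabi-Yau type.** -/
theorem abs_final (D : Conjugates T) {n : ℕ} (hw : ∀ i, Odd (w i))
    (hV : ∀ i, GenericCY (V i)) (hX : ∀ i, OfType T (X i) (V i) (m i)) (hZ : n = 0 ∨ IsSumOf T Z W m')
    (hi : ∀ i j, IsIndep (V i) (W j)) :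
    (∀ Y, Dominated T Z X n Y → AbsHodgeFor D Y) ↔
      ∀ P, IsBasic Z X V n P → AbsHodgeFor D P := by
  refine ⟨fun h P hP => h P hP.dominated, fun h Y hY j c hc => ?_⟩
  exact abs_of_mem (main_D hw hV hX hZ hi (S := absSys (toD D))
    (fun _ _ _ hz => ClassPred.alg_le (Q := absPred (toD D)) (cl_mem_alg hz))
    (fun P hP => sp_le_abs (h P hP)) hY (ClassPred.sp_of (Q := hodgePred (toH T)) hc)) hc

end Run7.h853.Cg
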